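import Pool.Agent.W516.KCM.Defs
import Pool.Agent.W537.PC.Small

/-!
# Small relations for abelian extensions
-/

set_option autoImplicit false

namespace Pool.Agent.W21.KCM

open Module Pool.Agent.W516.KCM

theorem small' {G : Type*} [Group G] [Fintype G] (hcomm : ∀ a b : G, a * b = b * a) (c : G)
    (B : G → ℤ) (hodd : ∀ g, B (c * g) = - B g) (hB : B ≠ 0) :
    ∃ (n : G → ℤ) (N : ℕ) (h : G → ℤ), 0 < N ∧ h ≠ 0 ∧ (∀ g, h g = 0 ∨ h g = 1 ∨ h g = -1) ∧
      (∀ g, h (c * g) = - h g) ∧ ∀ g, ∑ u, n u * B (u * g) = N * h g := by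
  let _ : CommGroup G := { (inferInstance : Group G) with mul_comm := hcomm }
  exact Pool.Agent.W537.PC.exists_small c B hodd hB

theorem T_SMA : S_SMA := by
  intro k E _ _ _ _ _ _ _ ι hcomm hι hne s hs hs0
  classical
  let j : E →ₐ[k] ℂ := IsAlgClosed.lift
  have hj : Function.Injective j := j.toRingHom.injective
  let c : E ≃ₐ[k] E := AlgEquiv.ofAlgHom ι ι (by ext e; exact hι e) (by ext e; exact hι e)
  have hc : ∀ e, c e = ι e := fun e => rfl
  let f : (E ≃ₐ[k] E) → (E →ₐ[k] ℂ) := fun g => j.comp (g : E →ₐ[k] E)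
  have hf : ∀ g e, f g e = j (g e) := fun g e => rfl
  have hinj : Function.Injective f := by
    intro g h hgh
    ext e
    apply hj
    have := DFunLike.congr_fun hgh e
    exact this
  have hbij : Function.Bijective f := by
    rw [Fintype.bijective_iff_injective_and_card]
    refine ⟨hinj, ?_⟩
    rw [AlgHom.card k E ℂ, ← IsGalois.card_aut_eq_finrank k E, Nat.card_eq_fintype_card]
  let e := Equiv.ofBijective f hbij
  have he : ∀ g, e g = f g := fun g => rfl
  have hcomp : ∀ g : E ≃ₐ[k] E, (f g).comp ι = f (g * c) := by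
    intro g
    ext x
    rfl
  obtain ⟨n, N, h, hN, hh0, hh1, hh2, hh3⟩ := small' hcomm c (fun g => s (f g)) (fun g => by
    rw [hcomm c g, ← hcomp]
    exact hs _) (by
    intro h0
    apply hs0
    funext τ
    obtain ⟨g, rfl⟩ := hbij.2 τ
    exact congrFun h0 g)
  have hes : ∀ g, e.symm (f g) = g := fun g => e.symm_apply_apply g
  refine ⟨fun τ => h (e.symm τ), ?_, ?_, fun τ => hh1 _, ?_⟩
  · intro τ
    obtain ⟨g, rfl⟩ := hbij.2 τ
    change h (e.symm ((f g).comp ι)) = - h (e.symm (f g))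
    rw [hcomp, hes, hes, hcomm g c]
    exact hh2 g
  · intro h0
    apply hh0
    funext g
    have := congrFun h0 (f g)
    simp only [hes] at this
    exact this
  · intro z _ hsum
    have h1 : ∑ g : E ≃ₐ[k] E, (s (f g) : ℂ) * j (g z) = 0 := by
      rw [← hsum, ← e.sum_comp]
      rfl
    have h2 : ∑ g : E ≃ₐ[k] E, (s (f g) : E) * g z = 0 := by
      apply hj
      rw [map_zero, map_sum, ← h1]
      refine Finset.sum_congr rfl fun g _ => ?_
      rw [map_mul, map_intCast]
    have h3 : ∀ u : E ≃ₐ[k] E, ∑ g : E ≃ₐ[k] E, (s (f (u * g)) : ℂ) * j (g z) = 0 := by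
      intro u
      have h4 : ∑ g : E ≃ₐ[k] E, (s (f (u * g)) : ℂ) * j (g z) =
          ∑ g : E ≃ₐ[k] E, (s (f g) : ℂ) * j (u⁻¹ (g z)) := by
        rw [← Equiv.sum_comp (Equiv.mulLeft u) (fun g : E ≃ₐ[k] E => (s (f g) : ℂ) * j (u⁻¹ (g z)))]
        refine Finset.sum_congr rfl fun g _ => ?_
        simp only [Equiv.coe_mulLeft]
        congr 2
        rw [← AlgEquiv.mul_apply, inv_mul_cancel_left]
      have h5 : j (u⁻¹ (∑ g : E ≃ₐ[k] E, (s (f g) : E) * g z)) = 0 := by
        rw [h2, map_zero, map_zero]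
      rw [h4, ← h5, map_sum, map_sum]
      refine Finset.sum_congr rfl fun g _ => ?_
      rw [map_mul, map_mul, map_intCast, map_intCast]
    have h6 : (N : ℂ) * ∑ τ : E →ₐ[k] ℂ, (h (e.symm τ) : ℂ) * τ z = 0 := by
      rw [← e.sum_comp]
      have h7 : ∀ g : E ≃ₐ[k] E, (N : ℂ) * ((h (e.symm (e g)) : ℂ) * (e g) z) =
          ∑ u : E ≃ₐ[k] E, (n u : ℂ) * ((s (f (u * g)) : ℂ) * j (g z)) := by
        intro g
        rw [e.symm_apply_apply, ← mul_assoc]
        have h8 : ((N : ℂ) * (h g : ℂ)) = ∑ u : E ≃ₐ[k] E, (n u : ℂ) * (s (f (u * g)) : ℂ) := by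
          have := hh3 g
          exact_mod_cast this.symm
        rw [h8, Finset.sum_mul]
        refine Finset.sum_congr rfl fun u _ => ?_
        rw [mul_assoc]
        rfl
      rw [Finset.mul_sum, Finset.sum_congr rfl fun g _ => h7 g, Finset.sum_comm]
      refine Finset.sum_eq_zero fun u _ => ?_
      rw [← Finset.mul_sum, h3 u, mul_zero]
    have hN0 : (N : ℂ) ≠ 0 := by exact_mod_cast hN.ne'
    exact (mul_eq_zero.1 h6).resolve_left hN0

end Pool.Agent.W21.KCM
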